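import Pool.Agent.RCM.StmtsA
import Pool.Agent.Helper35_RCM.Base

/-! Row OPB of squad RCA. -/

set_option autoImplicit false

namespace Pool.Agent.RCM.H5

open Set Pool.Agent.RCM

universe u

theorem opb (hR : RnbStmt.{u}) : OpbStmt.{u} := by
  intro E K _ _ M N κ X
  obtain ⟨hmono, -, hsub, -, -⟩ := hR E K M N κ X
  refine ⟨?_, ?_, ?_, ?_⟩
  · intro a b T P T' P' hab h
    induction h generalizing b with
    | rfl a T P => exact Op.rfl b T P
    | move a T P T' P' T'' _ hm ih =>
      obtain ⟨b, rfl⟩ : ∃ c, b = c + 1 := ⟨b - 1, by omega⟩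
      exact Op.move b T P T' P' T'' (ih b (by omega)) hm
    | frz a T P T' P' r _ hr ih =>
      obtain ⟨b, rfl⟩ : ∃ c, b = c + 1 := ⟨b - 1, by omega⟩
      exact Op.frz b T P T' P' r (ih b (by omega)) hr
  · intro a b T P T' P' T'' P'' h1 h2
    induction h2 with
    | rfl b T' P' =>
      -- monotone in the number
      clear hmono hsub
      have key : ∀ (a b : ℕ) (T P T' P' : Set E), a ≤ b → Op M N κ X a T P T' P' →
          Op M N κ X b T P T' P' := by
        intro a b T P T' P' hab h
        induction h generalizing b with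
        | rfl a T P => exact Op.rfl b T P
        | move a T P T' P' T'' _ hm ih =>
          obtain ⟨b, rfl⟩ : ∃ c, b = c + 1 := ⟨b - 1, by omega⟩
          exact Op.move b T P T' P' T'' (ih b (by omega)) hm
        | frz a T P T' P' r _ hr ih =>
          obtain ⟨b, rfl⟩ : ∃ c, b = c + 1 := ⟨b - 1, by omega⟩
          exact Op.frz b T P T' P' r (ih b (by omega)) hr
      exact key a (a + b) T P T' P' (by omega) h1
    | move b T1 P1 T2 P2 T3 _ hm ih => exact Op.move (a + b) T P T2 P2 T3 (ih h1) hm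
    | frz b T1 P1 T2 P2 r _ hr ih => exact Op.frz (a + b) T P T2 P2 r (ih h1) hr
  · intro a T P T' P' h
    induction h with
    | rfl a T P => exact ⟨Subset.rfl, by omega, Rn.rfl a T⟩
    | move a T P T' P' T'' _ hm ih =>
      obtain ⟨h1, h2, h3⟩ := ih
      refine ⟨h1, by omega, Rn.step a T T' T'' h3 ?_⟩
      obtain ⟨x, y, hy, hx, hX, hM, hN, he⟩ := hm
      exact ⟨x, y, hy, hx, hX, fun hc => hM (M.closure_subset_closure
        (union_subset_union_right _ h1) hc), hN, he⟩
    | frz a T P T' P' r _ hr ih =>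
      obtain ⟨h1, h2, h3⟩ := ih
      refine ⟨h1.trans (subset_insert _ _), ?_, hmono P a (a + 1) T T' (by omega) h3⟩
      have := ncard_insert_le r P'
      omega
  · intro s t a T P T' P' hC hMx hSt h
    induction h with
    | rfl a T P => exact ⟨hSt, rfl⟩
    | move a T P T' P' T'' _ hm ih =>
      obtain ⟨h1, h2⟩ := ih hSt
      have h3 := H35.rch' E K M N κ s t P' X T' T'' hC hMx h1 (Relation.ReflTransGen.single hm)
      exact ⟨h3.1, h3.2.2.2.2.2.2.trans h2⟩
    | frz a T P T' P' r _ hr ih =>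
      obtain ⟨h1, h2⟩ := ih hSt
      refine ⟨⟨h1.ri, h1.card, ?_, ?_, h1.col⟩, h2⟩
      · have hrE : r ∈ M.E := (hC.indM (κ r)).subset_ground (by simp)
        have hnot : r ∉ T' ∪ P' := fun hc => hr (M.mem_closure_of_mem hc h1.fr.subset_ground)
        have : M.Indep (insert r (T' ∪ P')) :=
          (h1.fr.insert_indep_iff_of_notMem hnot).2 ⟨hrE, hr⟩
        rwa [union_insert]
      · rw [disjoint_insert_right]
        exact ⟨fun hc => hr (M.mem_closure_of_mem (Or.inl hc) h1.fr.subset_ground), h1.dj⟩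

end Pool.Agent.RCM.H5
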